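import Pool.Agent.H39.QP.Final

/-!
# Approximation with two concave variables and totally unimodular constraints

The existence of the algorithm asked for in Q1, for some `p ≥ 2` and some `ε` in `(0, 1]`, implies
`P = NP`: every language in `NP` reduces in polynomial time to the question whether the objective of
an instance with a totally unimodular constraint matrix, exactly two concave variables, `w = 0`,
`h = 0` and a feasible point is unbounded below.
-/

set_option autoImplicit false

namespace Pool.Agent.Results.MP_ed7369_lc.UnboundednessHard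

open Pool.Agent.NPC Pool.Agent.H39.QP

theorem result :
    (∀ L : Set (List Bool), InNP L →
      ∃ f : List Bool → Instance, PolyTime (fun x => bits (f x)) ∧ ∀ x, (f x).WF ∧
        (f x).matrix.IsTotallyUnimodular ∧ (f x).concave = 2 ∧ (∀ b ∈ (f x).w, b = 0) ∧
        (∀ b ∈ (f x).h, b = 0) ∧ (∃ y, (f x).Feasible y) ∧ (x ∈ L ↔ (f x).Unbounded)) ∧
    ∀ (p : ℕ) (ε : ℝ), 2 ≤ p → 0 < ε → ε ≤ 1 →
      (∃ A : List Bool → List Bool, PolyTime A ∧ Solves p ε A) →
      ∀ L : Set (List Bool), InNP L → InP L :=
  ⟨fun L hL => hard L hL, fun p ε hp _ _ h L hL => no_algorithm p ε hp h L hL⟩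

end Pool.Agent.Results.MP_ed7369_lc.UnboundednessHard
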